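import Mathlib

open Equiv Finset

namespace Pool.Agent.H.MP_ff6929_pr

/-- transitive self-maps -/
def Tr {α : Type*} (g : α → α) : Prop := ∀ u v, ∃ k, g^[k] u = v

lemma card_tr {n : ℕ} (hn : 2 ≤ n) [DecidablePred fun g : Perm (Fin n) => Tr g] :
    #{g : Perm (Fin n) | Tr g} ≤ (n - 1).factorial := by
  have h := Equiv.Perm.card_of_cycleType_singleton (α := Fin n) hn (by simp)
  simp only [Fintype.card_fin, Nat.choose_self, mul_one] at h
  rw [← h]
  refine card_le_card fun g hg => ?_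
  simp only [mem_filter, mem_univ, true_and] at hg ⊢
  have hf : ∀ x, g x ≠ x := by
    intro x hx
    have : Nontrivial (Fin n) := Fin.nontrivial_iff_two_le.2 hn
    obtain ⟨y, hy⟩ := exists_ne x
    obtain ⟨k, hk⟩ := hg x y
    rw [Function.iterate_fixed hx] at hk
    exact hy hk.symm
  have hc : g.IsCycle := by
    refine ⟨⟨0, by omega⟩, hf _, fun y _ => ?_⟩
    obtain ⟨k, hk⟩ := hg ⟨0, by omega⟩ y
    exact ⟨k, by rw [zpow_natCast, ← Perm.iterate_eq_pow]; exact hk⟩
  rw [hc.cycleType]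
  congr 1
  have : g.support = univ := by
    ext x; simp [hf x]
  simp [this]

/-- relabelling of the fibre over `0` -/
def tw {n : ℕ} (t : Perm (Fin n)) : Perm (Fin 3 × Fin n) :=
  Equiv.prodCongrRight fun x => if x = 0 then t else 1

lemma tw_zero {n : ℕ} (t : Perm (Fin n)) (i : Fin n) : tw t (0, i) = (0, t i) := by
  simp [tw]

lemma tw_ne {n : ℕ} (t : Perm (Fin n)) (v : Fin 3 × Fin n) (h : v.1 ≠ 0) : tw t v = v := by
  obtain ⟨x, i⟩ := v
  simp only at h
  simp [tw, h]

lemma ret {n : ℕ} (F : Perm (Fin 3 × Fin n)) :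
    ∃ R : Fin n → Fin n, ∀ t : Perm (Fin n), Tr (tw t * F) → Tr (t ∘ R) := by
  classical
  have ex : ∀ i : Fin n, ∃ k, ((F^[k + 1]) (0, i)).1 = 0 := by
    intro i
    refine ⟨orderOf F - 1, ?_⟩
    rw [Nat.sub_add_cancel (orderOf_pos F), Perm.iterate_eq_pow, pow_orderOf_eq_one]
    rfl
  refine ⟨fun i => (F^[Nat.find (ex i) + 1] (0, i)).2, fun t ht i j => ?_⟩
  set R : Fin n → Fin n := fun i => (F^[Nat.find (ex i) + 1] (0, i)).2 with hR
  have key : ∀ k, ∃ a m, m ≤ Nat.find (ex ((t ∘ R)^[a] i)) ∧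
      (tw t * F)^[k] (0, i) = F^[m] (0, (t ∘ R)^[a] i) := by
    intro k
    induction k with
    | zero => exact ⟨0, 0, Nat.zero_le _, rfl⟩
    | succ k ih =>
      obtain ⟨a, m, hm, he⟩ := ih
      rw [Function.iterate_succ_apply', he]
      rcases hm.lt_or_eq with hm | hm
      · refine ⟨a, m + 1, hm, ?_⟩
        have := Nat.find_min (ex _) hm
        rw [Perm.mul_apply, ← Function.iterate_succ_apply' F, tw_ne _ _ this]
      · refine ⟨a + 1, 0, Nat.zero_le _, ?_⟩
        have h1 := Nat.find_spec (ex ((t ∘ R)^[a] i))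
        rw [Perm.mul_apply, ← Function.iterate_succ_apply' F, hm,
          Function.iterate_succ_apply' (t ∘ R)]
        have h2 : F^[(Nat.find (ex ((t ∘ R)^[a] i))).succ] (0, (t ∘ R)^[a] i)
            = (0, R ((t ∘ R)^[a] i)) := Prod.ext h1 rfl
        rw [h2, tw_zero]
        rfl
  obtain ⟨k, hk⟩ := ht (0, i) (0, j)
  obtain ⟨a, m, hm, he⟩ := key k
  rw [hk] at he
  refine ⟨a, ?_⟩
  rcases m with _ | m
  · exact (congrArg Prod.snd he).symm
  · exact absurd (by rw [← he]) (Nat.find_min (ex _) (Nat.lt_of_succ_le hm))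

lemma card_tw {n : ℕ} (hn : 2 ≤ n) (F : Perm (Fin 3 × Fin n))
    [DecidablePred fun t : Perm (Fin n) => Tr (tw t * F)] :
    #{t : Perm (Fin n) | Tr (tw t * F)} ≤ (n - 1).factorial := by
  classical
  obtain ⟨R, hR⟩ := ret F
  rcases (univ.filter fun t : Perm (Fin n) => Tr (tw t * F)).eq_empty_or_nonempty with h | ⟨t0, h0⟩
  · rw [h]; simp
  have h0' := hR t0 (mem_filter.1 h0).2
  have hs : Function.Surjective R := by
    have : Function.Surjective (t0 ∘ R) := by
      intro j
      have : Nontrivial (Fin n) := Fin.nontrivial_iff_two_le.2 hn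
      obtain ⟨y, hy⟩ := exists_ne j
      obtain ⟨k, hk⟩ := h0' y j
      rcases k with _ | k
      · exact absurd hk hy
      · exact ⟨_, by rw [← hk, Function.iterate_succ_apply']⟩
    intro j
    obtain ⟨i, hi⟩ := this (t0 j)
    exact ⟨i, t0.injective hi⟩
  let R' : Perm (Fin n) := Equiv.ofBijective R (Finite.surjective_iff_bijective.1 hs)
  refine le_trans (card_le_card_of_injOn (fun t => t * R') ?_ ?_) (card_tr hn)
  · intro t ht
    simp only [coe_filter, mem_univ, true_and, Set.mem_ofPred_eq] at ht ⊢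
    exact hR t ht
  · intro a _ b _ h
    exact mul_right_cancel h

/-- number of invariant two-colourings -/
def N {n : ℕ} (s : Perm (Fin n)) : ℕ := #{g : Fin n → Bool | ∀ i, g (s i) = g i}

lemma N_succ {n : ℕ} (p : Fin (n + 1)) (s : Perm (Fin n)) :
    N (Perm.decomposeFin.symm (p, s)) ≤ (if p = 0 then 2 else 1) * N s := by
  classical
  have inv : ∀ g : Fin (n + 1) → Bool, (∀ i, g (Perm.decomposeFin.symm (p, s) i) = g i) →
      g p = g 0 ∧ ∀ i, g (s i).succ = g i.succ := by
    intro g hg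
    have h0 : g p = g 0 := by simpa using hg 0
    refine ⟨h0, fun i => ?_⟩
    have := hg i.succ
    rw [Perm.decomposeFin_symm_apply_succ] at this
    rw [← this, swap_apply_def]
    split_ifs with h1 h2
    · rw [h1, h0]
    · rw [h2, h0]
    · rfl
  split_ifs with hp
  · have : 2 * N s = #((univ : Finset Bool) ×ˢ univ.filter fun g : Fin n → Bool => ∀ i, g (s i) = g i) := by
      simp [N]
    rw [this]
    refine card_le_card_of_injOn (fun g => (g 0, fun i => g i.succ)) ?_ ?_
    · intro g hg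
      simp only [coe_filter, mem_univ, true_and, Set.mem_ofPred_eq] at hg
      simpa using (inv g hg).2
    · intro g _ g' _ h
      simp only [Prod.mk.injEq] at h
      funext i
      refine Fin.cases h.1 (fun i => congrFun h.2 i) i
  · rw [one_mul]
    refine card_le_card_of_injOn (fun g i => g i.succ) ?_ ?_
    · intro g hg
      simp only [coe_filter, mem_univ, true_and, Set.mem_ofPred_eq] at hg
      simpa using (inv g hg).2
    · intro g hg g' hg' h
      simp only [coe_filter, mem_univ, true_and, Set.mem_ofPred_eq] at hg hg'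
      obtain ⟨q, rfl⟩ := Fin.exists_succ_eq.2 hp
      funext i
      refine Fin.cases ?_ (fun i => congrFun h i) i
      rw [← (inv g hg).1, ← (inv g' hg').1]
      exact congrFun h q

lemma sum_succ (n : ℕ) :
    ∑ s : Perm (Fin (n + 1)), √(N s) ≤ (√2 + n) * ∑ s : Perm (Fin n), √(N s) := by
  rw [← Perm.decomposeFin.symm.sum_comp, Fintype.sum_prod_type]
  calc _ ≤ ∑ p : Fin (n + 1), ∑ s : Perm (Fin n), (if p = 0 then √2 else 1) * √(N s) := by
        refine sum_le_sum fun p _ => sum_le_sum fun s _ => ?_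
        have h := N_succ p s
        have h' : (N (Perm.decomposeFin.symm (p, s)) : ℝ) ≤ (if p = 0 then 2 else 1) * N s := by
          exact_mod_cast h
        refine (Real.sqrt_le_sqrt h').trans_eq ?_
        split_ifs <;> simp
    _ = _ := by
        simp_rw [← mul_sum]
        rw [← sum_mul, Fin.sum_univ_succ]
        simp [Fin.succ_ne_zero]

lemma sum_le (n : ℕ) :
    ∑ s : Perm (Fin (n + 1)), √(N s) ≤ √2 * (n + 1 : ℝ) ^ (0.45 : ℝ) * (n + 1).factorial := by
  induction n with
  | zero =>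
    refine (sum_succ 0).trans ?_
    simp [N]
  | succ n ih =>
    refine (sum_succ (n + 1)).trans ?_
    have h2 : √2 ≤ 1.45 := Real.sqrt_le_iff.2 ⟨by norm_num, by norm_num⟩
    have hn : (0 : ℝ) ≤ n := Nat.cast_nonneg n
    have hb : (n + 1 : ℝ) ^ (0.45 : ℝ) * (1 + 0.45 / (n + 2)) ≤ (n + 2 : ℝ) ^ (0.45 : ℝ) := by
      have e1 : (1 : ℝ) + 0.45 / (n + 2) ≤ Real.exp (0.45 / (n + 2)) := by
        linarith [Real.add_one_le_exp (0.45 / (n + 2 : ℝ))]
      have e2 : (n + 1 : ℝ) * Real.exp (1 / (n + 2)) ≤ n + 2 := by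
        have e3 := Real.add_one_le_exp (-(1 / (n + 2 : ℝ)))
        have e4 : -(1 / (n + 2 : ℝ)) + 1 = (n + 1) / (n + 2) := by field_simp; ring
        rw [e4, Real.exp_neg, div_le_iff₀ (by positivity), inv_mul_eq_div,
          le_div_iff₀ (Real.exp_pos _)] at e3
        exact e3
      calc _ ≤ (n + 1 : ℝ) ^ (0.45 : ℝ) * Real.exp (1 / (n + 2)) ^ (0.45 : ℝ) := by
            rw [← Real.exp_mul]
            gcongr
            refine e1.trans_eq ?_
            congr 1; ring
        _ = ((n + 1 : ℝ) * Real.exp (1 / (n + 2))) ^ (0.45 : ℝ) := by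
            rw [Real.mul_rpow (by positivity) (by positivity)]
        _ ≤ _ := by gcongr
    have hf : (((n + 1 + 1).factorial : ℕ) : ℝ) = (n + 2) * (n + 1).factorial := by
      rw [Nat.factorial_succ (n + 1)]; push_cast; ring
    rw [hf]
    push_cast
    calc (√2 + (n + 1)) * ∑ s : Perm (Fin (n + 1)), √(N s)
        ≤ ((1 + 0.45 / (n + 2)) * (n + 2)) *
          (√2 * (n + 1 : ℝ) ^ (0.45 : ℝ) * (n + 1).factorial) := by
          gcongr
          have : ((1 : ℝ) + 0.45 / (n + 2)) * (n + 2) = n + 2 + 0.45 := by field_simp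
          rw [this]; linarith
      _ = √2 * ((n + 1 : ℝ) ^ (0.45 : ℝ) * (1 + 0.45 / (n + 2))) * ((n + 2) * (n + 1).factorial) := by
          ring
      _ ≤ √2 * (n + 2 : ℝ) ^ (0.45 : ℝ) * ((n + 2) * (n + 1).factorial) := by gcongr
      _ = _ := by rw [show (n : ℝ) + 1 + 1 = n + 2 by ring]

/-- one-factors of the lift -/
def Fac {n : ℕ} (m : Fin 3 → Fin 3 → Perm (Fin n)) (F : Perm (Fin 3 × Fin n)) : Prop :=
  ∀ v, v.1 ≠ (F v).1 ∧ m v.1 (F v).1 v.2 = (F v).2

def be {n : ℕ} (m : Fin 3 → Fin 3 → Perm (Fin n)) (x : Fin 3) : Perm (Fin n) :=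
  (m (x + 2) (x + 1))⁻¹ * m x (x + 1)

lemma alt {n : ℕ} {m : Fin 3 → Fin 3 → Perm (Fin n)} {F : Perm (Fin 3 × Fin n)} (h : Fac m F)
    (x : Fin 3) (i : Fin n) :
    (F (x, i)).1 = x + 1 ↔ (F (x + 2, be m x i)).1 = x := by
  have a1 : ∀ x y : Fin 3, y ≠ x + 1 → y = x ∨ y = x + 2 := by decide
  have a2 : ∀ x : Fin 3, x ≠ x + 2 ∧ x ≠ x + 1 := by decide
  have a3 : ∀ x y : Fin 3, x + 2 ≠ y → y ≠ x → y = x + 1 := by decide
  have hb : m (x + 2) (x + 1) (be m x i) = m x (x + 1) i := by simp [be]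
  constructor
  · intro h1
    by_contra h2
    have h3 := a3 x _ (h (x + 2, be m x i)).1 h2
    have h4 := (h (x + 2, be m x i)).2
    have h5 := (h (x, i)).2
    rw [h3] at h4
    rw [h1] at h5
    have : F (x, i) = F (x + 2, be m x i) := Prod.ext (h1.trans h3.symm) (by rw [← h4, ← h5, hb])
    exact (a2 x).1 (congrArg Prod.fst (F.injective this))
  · intro h1
    obtain ⟨⟨y, j⟩, hu⟩ := F.surjective (x + 1, m x (x + 1) i)
    have h2 := h (y, j)
    rw [hu] at h2
    rcases a1 x y h2.1 with rfl | rfl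
    · have : j = i := (m y (y + 1)).injective h2.2
      rw [← this, hu]
    · have : j = be m x i := (m (x + 2) (x + 1)).injective (h2.2.trans hb.symm)
      rw [← this, hu] at h1
      exact absurd h1.symm (a2 x).2

def sg {n : ℕ} (m : Fin 3 → Fin 3 → Perm (Fin n)) : Perm (Fin n) := be m 1 * be m 2 * be m 0

lemma card_fac {n : ℕ} (m : Fin 3 → Fin 3 → Perm (Fin n)) [DecidablePred (Fac m)] :
    #{F | Fac m F} ≤ N (sg m) := by
  refine card_le_card_of_injOn (fun F i => decide ((F (0, i)).1 = 1)) ?_ ?_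
  · intro F hF
    simp only [coe_filter, mem_univ, true_and, Set.mem_ofPred_eq] at hF ⊢
    intro i
    have h0 := alt hF 0 i
    have h2 := alt hF 2 (be m 0 i)
    have h1 := alt hF 1 (be m 2 (be m 0 i))
    exact decide_eq_decide.2 (h0.trans (h2.trans h1)).symm
  · intro F hF G hG h
    simp only [coe_filter, mem_univ, true_and, Set.mem_ofPred_eq] at hF hG
    have k0 : ∀ i, (F (0, i)).1 = 0 + 1 ↔ (G (0, i)).1 = 0 + 1 := fun i =>
      decide_eq_decide.1 (congrFun h i)
    have st : ∀ x : Fin 3, (∀ i, (F (x, i)).1 = x + 1 ↔ (G (x, i)).1 = x + 1) →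
        ∀ i, (F (x + 2, i)).1 = x + 2 + 1 ↔ (G (x + 2, i)).1 = x + 2 + 1 := by
      intro x hx i
      obtain ⟨j, rfl⟩ := (be m x).surjective i
      have a : ∀ x : Fin 3, x + 2 + 1 = x := by decide
      rw [a, ← alt hF, ← alt hG, hx]
    have k : ∀ x : Fin 3, ∀ i, (F (x, i)).1 = x + 1 ↔ (G (x, i)).1 = x + 1 := by
      intro x
      fin_cases x
      · exact k0
      · exact st 2 (st 0 k0)
      · exact st 0 k0
    ext1 ⟨x, i⟩
    have a : ∀ x y z : Fin 3, x ≠ y → x ≠ z → (y = x + 1 ↔ z = x + 1) → y = z := by decide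
    have e := a x _ _ (hF (x, i)).1 (hG (x, i)).1 (k x i)
    refine Prod.ext e ?_
    rw [← (hF (x, i)).2, ← (hG (x, i)).2, e]

lemma card_good {n : ℕ} (hn : 2 ≤ n) (m : Fin 3 → Fin 3 → Perm (Fin n)) (S : Finset (Perm (Fin n)))
    (hS : ∀ t ∈ S, ∃ F, Fac m F ∧ Tr (tw t * F)) :
    (#S : ℝ) ≤ n.factorial * (√(N (sg m)) / √n) := by
  classical
  have h1 : #S ≤ N (sg m) * (n - 1).factorial := by
    calc #S ≤ #((univ.filter (Fac m)).biUnion fun F => {t : Perm (Fin n) | Tr (tw t * F)}) := by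
          refine card_le_card fun t ht => ?_
          obtain ⟨F, h1, h2⟩ := hS t ht
          simp only [mem_biUnion, mem_filter, mem_univ, true_and]
          exact ⟨F, h1, h2⟩
      _ ≤ #(univ.filter (Fac m)) * (n - 1).factorial :=
          card_biUnion_le_card_mul _ _ _ fun F _ => card_tw hn F
      _ ≤ _ := Nat.mul_le_mul_right _ (card_fac m)
  have h2 : #S ≤ n.factorial := by
    simpa [Fintype.card_perm] using card_le_univ S
  have h3 : (n : ℝ) * (n - 1).factorial = n.factorial := by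
    exact_mod_cast Nat.mul_factorial_pred (by omega)
  have hn0 : (0 : ℝ) < n := by exact_mod_cast (by omega : 0 < n)
  have h1' : (#S : ℝ) ≤ n.factorial * (N (sg m) / n) := by
    rw [← h3]
    have : (#S : ℝ) ≤ N (sg m) * (n - 1).factorial := by exact_mod_cast h1
    refine this.trans_eq ?_
    field_simp
  have h2' : (#S : ℝ) ≤ n.factorial := by exact_mod_cast h2
  rw [← Real.sqrt_div (Nat.cast_nonneg _)]
  have hu : (0 : ℝ) ≤ N (sg m) / n := by positivity
  generalize (N (sg m) / n : ℝ) = u at *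
  rcases le_total u 1 with h | h
  · refine h1'.trans ?_
    gcongr
    exact Real.le_sqrt_of_sq_le (by nlinarith)
  · refine h2'.trans (le_mul_of_one_le_right (by positivity) (Real.one_le_sqrt.2 h))

end Pool.Agent.H.MP_ff6929_pr
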