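import Mathlib
import Pool.Agent.H.MP_ff6929_pr.A

open Equiv Finset Filter Topology

namespace Pool.Agent.H.MP_ff6929_pr

/-- arcs of the complete digraph on three vertices -/
abbrev Arc := {p : Fin 3 × Fin 3 // p.1 ≠ p.2}

/-- arcs of the lift determined by the six matchings `M` -/
def Adj {n : ℕ} (M : Arc → Perm (Fin n)) (u v : Fin 3 × Fin n) : Prop :=
  ∃ h : u.1 ≠ v.1, M ⟨(u.1, v.1), h⟩ u.2 = v.2

/-- the lift has a directed cycle through all of its `3 n` vertices -/
def Ham {n : ℕ} (M : Arc → Perm (Fin n)) : Prop :=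
  ∃ c : ZMod (3 * n) ≃ Fin 3 × Fin n, ∀ i, Adj M (c i) (c (i + 1))

def mm {n : ℕ} (M : Arc → Perm (Fin n)) (x y : Fin 3) : Perm (Fin n) :=
  if h : x ≠ y then M ⟨(x, y), h⟩ else 1

def act {n : ℕ} (t : Perm (Fin n)) : Arc → Perm (Fin n) := fun a => if a.1.2 = 0 then t else 1

def one {n : ℕ} (r : Perm (Fin n)) : Arc → Perm (Fin n) := fun a => if a.1 = (0, 1) then r else 1

lemma good {n : ℕ} (hn : 2 ≤ n) (M : Arc → Perm (Fin n)) (t : Perm (Fin n))
    (h : Ham (act t * M)) : ∃ F, Fac (mm M) F ∧ Tr (tw t * F) := by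
  obtain ⟨c, hc⟩ := h
  have : NeZero (3 * n) := ⟨by omega⟩
  let G : Perm (Fin 3 × Fin n) := (c.symm.trans (Equiv.addRight 1)).trans c
  have hG : ∀ i, G (c i) = c (i + 1) := fun i => by simp [G]
  refine ⟨(tw t)⁻¹ * G, fun v => ?_, ?_⟩
  · obtain ⟨i, rfl⟩ := c.surjective v
    obtain ⟨h1, h2⟩ := hc i
    rw [Perm.mul_apply, hG]
    generalize c (i + 1) = w at *
    generalize c i = u at *
    obtain ⟨w, rfl⟩ := (tw t).surjective w
    rw [Perm.coe_inv, symm_apply_apply]
    obtain ⟨y, j⟩ := w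
    by_cases hy : y = 0
    · subst hy
      simp only [tw_zero] at h1 h2
      refine ⟨h1, t.injective ?_⟩
      simpa [act, mm, h1] using h2
    · simp only [tw_ne t (y, j) hy] at h1 h2
      refine ⟨h1, ?_⟩
      simpa [act, mm, h1, hy] using h2
  · rw [mul_inv_cancel_left]
    intro u v
    obtain ⟨i, rfl⟩ := c.surjective u
    obtain ⟨j, rfl⟩ := c.surjective v
    have : ∀ k : ℕ, G^[k] (c i) = c (i + k) := by
      intro k
      induction k with
      | zero => simp
      | succ k ih => rw [Function.iterate_succ_apply', ih, hG]; push_cast; rw [add_assoc]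
    exact ⟨(j - i).val, by rw [this]; simp⟩

lemma sg_one {n : ℕ} (M : Arc → Perm (Fin n)) (r : Perm (Fin n)) :
    sg (mm (M * one r)) = sg (mm M) * r := by
  have e : ∀ x y : Fin 3, mm (M * one r) x y = mm M x y * if (x, y) = (0, 1) then r else 1 := by
    intro x y
    unfold mm one
    split_ifs with h1 h2 h3
    · simp [h2]
    · simp only [Pi.mul_apply, if_neg h2]
    · simp only [Prod.mk.injEq] at h3
      exact absurd (by rw [h3.1, h3.2]; decide) h1
    · simp
  simp only [sg, be, e]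
  rw [if_neg (by decide), if_neg (by decide), if_neg (by decide), if_neg (by decide),
    if_neg (by decide), if_pos (by decide)]
  simp only [mul_one, mul_assoc]

lemma bound {n : ℕ} (hn : 1 ≤ n) :
    (Nat.card {M : Arc → Perm (Fin (n + 1)) // Ham M} : ℝ) / Nat.card (Arc → Perm (Fin (n + 1)))
      ≤ √2 * ((n + 1 : ℕ) : ℝ) ^ (-0.05 : ℝ) := by
  classical
  have hf : (0 : ℝ) < (n + 1).factorial := by positivity
  have hc : (0 : ℝ) < Nat.card (Arc → Perm (Fin (n + 1))) := by exact_mod_cast Nat.card_pos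
  have h1 : ((n + 1).factorial : ℝ) * Nat.card {M : Arc → Perm (Fin (n + 1)) // Ham M}
      ≤ (n + 1).factorial * ∑ M : Arc → Perm (Fin (n + 1)), √(N (sg (mm M))) / √(n + 1 : ℕ) := by
    calc _ = ∑ t : Perm (Fin (n + 1)), ∑ M : Arc → Perm (Fin (n + 1)),
            if Ham (act t * M) then (1 : ℝ) else 0 := by
          have : ∀ t : Perm (Fin (n + 1)), (∑ M : Arc → Perm (Fin (n + 1)),
              if Ham (act t * M) then (1 : ℝ) else 0)
              = Nat.card {M : Arc → Perm (Fin (n + 1)) // Ham M} := by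
            intro t
            refine (Equiv.sum_comp (Equiv.mulLeft (act t))
              fun M => if Ham M then (1 : ℝ) else 0).trans ?_
            simp [Fintype.card_subtype]
          simp [this, Fintype.card_perm]
      _ ≤ _ := by
          rw [sum_comm, mul_sum]
          refine sum_le_sum fun M _ => ?_
          rw [sum_boole]
          exact card_good (by omega) _ _ fun t ht => good (by omega) M t (mem_filter.1 ht).2
  have h2 : ((n + 1).factorial : ℝ) * ∑ M : Arc → Perm (Fin (n + 1)), √(N (sg (mm M)))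
      = Nat.card (Arc → Perm (Fin (n + 1))) * ∑ s : Perm (Fin (n + 1)), √(N s) := by
    calc _ = ∑ r : Perm (Fin (n + 1)), ∑ M : Arc → Perm (Fin (n + 1)),
            √(N (sg (mm (M * one r)))) := by
          have : ∀ r : Perm (Fin (n + 1)), ∑ M : Arc → Perm (Fin (n + 1)),
              √(N (sg (mm (M * one r)))) = ∑ M : Arc → Perm (Fin (n + 1)), √(N (sg (mm M))) :=
            fun r => Equiv.sum_comp (Equiv.mulRight (one r)) fun M => √(N (sg (mm M)))
          simp [this, Fintype.card_perm]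
      _ = _ := by
          rw [sum_comm]
          simp only [sg_one]
          have : ∀ M : Arc → Perm (Fin (n + 1)), ∑ r : Perm (Fin (n + 1)), √(N (sg (mm M) * r))
              = ∑ s : Perm (Fin (n + 1)), √(N s) :=
            fun M => Equiv.sum_comp (Equiv.mulLeft (sg (mm M))) fun s => √(N s)
          simp [this]
  have h3 := sum_le n
  rw [div_le_iff₀ hc]
  refine le_of_mul_le_mul_left (h1.trans ?_) hf
  rw [← sum_div, ← mul_div_assoc, h2, div_le_iff₀ (by positivity)]
  have h4 : ((n + 1 : ℕ) : ℝ) ^ (-0.05 : ℝ) * √(n + 1 : ℕ) = (n + 1 : ℝ) ^ (0.45 : ℝ) := by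
    rw [Real.sqrt_eq_rpow, ← Real.rpow_add (by positivity)]
    push_cast
    norm_num
  calc _ ≤ Nat.card (Arc → Perm (Fin (n + 1))) *
        (√2 * (n + 1 : ℝ) ^ (0.45 : ℝ) * (n + 1).factorial) := by gcongr
    _ = _ := by rw [← h4]; ring

theorem main :
    Tendsto (fun n : ℕ => (Nat.card {M : Arc → Perm (Fin n) // Ham M} : ℝ) /
      Nat.card (Arc → Perm (Fin n))) atTop (𝓝 0) := by
  rw [← tendsto_add_atTop_iff_nat 1]
  have h : Tendsto (fun n : ℕ => √2 * ((n + 1 : ℕ) : ℝ) ^ (-0.05 : ℝ)) atTop (𝓝 (√2 * 0)) :=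
    ((tendsto_rpow_neg_atTop (y := 0.05) (by norm_num)).comp
      (tendsto_natCast_atTop_atTop.comp (tendsto_add_atTop_nat 1))).const_mul _
  rw [mul_zero] at h
  refine squeeze_zero' (Eventually.of_forall fun n => by positivity) ?_ h
  filter_upwards [eventually_ge_atTop 1] with n hn using bound hn

end Pool.Agent.H.MP_ff6929_pr
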